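import Pool.Agent.K1H44.BC.Plan

/-!
# Blocks of consecutive primes
-/

set_option autoImplicit false

open Finset Pool.Agent.K1H44.BC

namespace Pool.Agent.K1H52.BC

lemma PB_eq {a b : ℕ} (h : a < b) :
    PB (Nat.nth Nat.Prime a) (Nat.nth Nat.Prime (b - 1)) = (Ico a b).image (Nat.nth Nat.Prime) := by
  have hm := Nat.nth_strictMono Nat.infinite_setOfPred_prime
  ext p
  unfold PB
  simp only [Finset.mem_filter, Finset.mem_Icc, Finset.mem_image, Finset.mem_Ico]
  constructor
  · rintro ⟨⟨h1, h2⟩, hp⟩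
    refine ⟨Nat.count Nat.Prime p, ?_, Nat.nth_count hp⟩
    rw [← Nat.nth_count hp] at h1 h2
    have h3 := hm.le_iff_le.1 h1
    have h4 := hm.le_iff_le.1 h2
    omega
  · rintro ⟨i, ⟨h1, h2⟩, rfl⟩
    refine ⟨⟨hm.monotone h1, hm.monotone (by omega)⟩, Nat.prime_nth_prime i⟩

theorem t_IDX : S_IDX := by
  intro a b h
  have hm := Nat.nth_strictMono Nat.infinite_setOfPred_prime
  rw [PB_eq h]
  constructor
  · rw [Finset.prod_image (fun i _ j _ hij => hm.injective hij)]
  · rw [Finset.card_image_of_injective _ hm.injective, Nat.card_Ico]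

end Pool.Agent.K1H52.BC
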